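import Pool.Agent.helper16.CVL.SpecD

/-! # Project cvd:, row LFT (helper39): points near `f^t p` lift to points near `p` -/

set_option autoImplicit false

open Complex Metric Set Filter Topology MeasureTheory
open HY (UD T S hd UN RM)
open RT (Dyn it Hon PB VC Lv UC TD rm lf cr pd bl gr hdf Lf IB)
open RB (VL LO FLS FL CLS FR TL TLL INN)
open PL (DK ht tr SUBH INR)
open CVL

noncomputable section

namespace CVD

/-- the lift of `f^t` which fixes `0`, with the dictionary for `hdf`. -/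
theorem LFT_lift (hLEV : LEV_stmt) (hTLF : RT.TLF_stmt) (hTDF : RT.TDF_stmt) (Y : Dyn) (s : ℝ) (hS : RA.Sys Y s) (x : ℂ) (hx : x ∈ Y.J)
    (n t : ℕ) : TD s (VL Y (n + t) x) ∧ x ∈ VL Y (n + t) x ∧ TD s (VL Y n (it Y t x)) ∧ it Y t x ∈ VL Y n (it Y t x) ∧
    ∃ F : ℂ → ℂ, Lf (it Y t) (VL Y (n + t) x) (VL Y n (it Y t x)) x (it Y t x) F ∧ F 0 = 0 ∧
    ∀ z ∈ UD, PL.hq F z = hdf (it Y t) (VL Y (n + t) x) (VL Y n (it Y t x)) (rm (VL Y (n + t) x) x z) := by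
  obtain ⟨-, -, hJ, hlev⟩ := hLEV Y s hS
  obtain ⟨hTW, hxW, -, -, -, -, hit⟩ := hlev x hx (n + t)
  obtain ⟨hTV, hxV, -⟩ := hlev (it Y t x) (hJ x hx t).1 n
  obtain ⟨hd1, hm1, -⟩ := hit t (Nat.le_add_left t n)
  rw [Nat.add_sub_cancel] at hm1
  have h0 : (0 : ℂ) ∈ UD := by simp [UD]
  have e1 : rm (VL Y (n + t) x) x 0 = x := (hTDF s _ hTW x hxW).1.val
  have e2 : rm (VL Y n (it Y t x)) (it Y t x) 0 = it Y t x := (hTDF s _ hTV _ hxV).1.val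
  obtain ⟨F, hF, hF0, hFh⟩ := hTLF s _ _ (it Y t) hTW hTV hd1 hm1 x hxW (it Y t x) hxV 0 h0 0 h0 (by rw [e1, e2])
  refine ⟨hTW, hxW, hTV, hxV, F, hF, hF0, fun z hz => ?_⟩
  rw [← hFh z hz]
  unfold PL.hq hd
  ring

theorem LFT (hLEV : LEV_stmt) (hLFP : PL.LFP_stmt) (hTLF : RT.TLF_stmt) (hTPM : RT.TPM_stmt) (hTDF : RT.TDF_stmt) : LFT_stmt := by
  intro a η ha hη
  obtain ⟨ε, hε, hN⟩ := hLFP a η ha hη
  refine ⟨ε, hε, ?_⟩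
  intro Y s hS x hx n t hLO p hp hpp y hy hyp
  obtain ⟨hTW, hxW, hTV, hxV, F, ⟨hFd, hFm, hFr⟩, -, hq⟩ := LFT_lift hLEV hTLF hTDF Y s hS x hx n t
  obtain ⟨z₀, hz₀, hz₁, hz₂⟩ := hLO
  obtain ⟨hUC, -, -, -, hb, -, hrm⟩ := hTDF s _ hTW x hxW
  obtain ⟨hUC', -, -, -, -, -, -⟩ := hTDF s _ hTV _ hxV
  obtain ⟨u, hu, hu1, hu2⟩ := (hb z₀ hz₀).2.2.2
  obtain ⟨v, hv, hv1, hv2⟩ := (hb p hp).2.2.2
  have hFv : rm (VL Y n (it Y t x)) (it Y t x) (F v) = it Y t p := by rw [hFr v hv, hv1]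
  obtain ⟨y', hy', hy1, hy2⟩ := (((hTPM s _ _ _ hTV hUC').2 (F v) (hFm hv)).2.2) y hy
  rw [hFv] at hy2
  obtain ⟨z, hz, hz3, hz4⟩ := hN F hFd hFm u v (by rw [hu2]; exact hz₁) (by rw [hq u hu, hu1]; exact hz₂)
    (by rw [hv2]; exact hpp) y' hy' (by rw [← hy2]; exact hyp)
  refine ⟨rm (VL Y (n + t) x) x z, (hrm z hz).1, ?_, ?_⟩
  · have h2 := (((hTPM s _ x _ hTW hUC).2 v hv).2.1) z hz
    rw [hv1] at h2
    exact lt_of_le_of_lt h2 hz3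
  · rw [← hFr z hz, hz4, hy1]

end CVD
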